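import Pool.Agent.Lib.MP_8d8c46_lc.Mg.G022

/-!
# Linear programs of size `2 ^ (n ^ c)` do not solve small-set expansion

The definitions are in `Pool/Agent/Lib/MP_8d8c46_lc/Problem.lean` (the promise problem
`SSE(η, δ)`: `SSEYes` and `SSENo`) and in `Pool/Agent/Lib/MP_8d8c46_lc/LPDef.lean` (the model of
linear programming relaxations: `LPRelaxation` and `LPRelaxation.Separates`).

Proof idea. Let `δ = p / q`. As in the Sherali–Adams gap (`SheraliAdamsGap`), a random `q`-lift `G`
of a random bipartite `d`-regular graph `B` is a No instance, while a Gaussian process on the
vertices defines consistent local distributions of labellings of the vertices of `B` by sets of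
`p` of the `q` sheets, which believe that the set of the labelling hardly expands; labels of
vertices far from a set are uniform and independent of the labels on the set. By Farkas' lemma a
small linear program writes the expansion of the set of a labelling, minus `ε`, for each relabelled
copy of `G`, as a nonnegative combination of few nonnegative functions of the labelling which do
not depend on the relabelling. The functional of the local distributions, relabelled by a random
permutation of the vertices of `B` and random permutations of the sheets, is, outside of an
exponentially small set of relabellings, nearly nonnegative on each such function. To prove this,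
one passes to a part of the exceptional set on which few values of the relabelling are fixed and
the rest is spread (density restoration), conditions on the fixed values, and estimates the
contribution of the Efron–Stein components of the function by a level inequality of
hypercontractive type together with a count of the sets of vertices that come close to one another.
-/

set_option autoImplicit false

namespace Pool.Agent.Results.MP_8d8c46_lc.ExponentialLP

open Pool.Agent.Lib.MP_8d8c46_lc Pool.Agent.Lib.MP_8d8c46_lc.EL

/-- For all rationals `0 < δ < η < 1` and all sufficiently large `d` the following holds: for every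
`ε > 0` there is `c > 0` such that for every sufficiently large `N` and every set `V` of
`2 d q N` vertices, where `q` is the denominator of `δ`, there are `d`-regular Yes instances of
`SSE(0, δ)` and `d`-regular No instances of `SSE(η, δ)` on `V`, but every linear programming
relaxation that separates the `d`-regular graphs on `V` with a set of `δ|V|` vertices of expansion at
most `ε` from the `d`-regular No instances of `SSE(η, δ)` on `V` has more than `2 ^ (|V| ^ c)`
inequalities. -/
theorem result {η δ : ℚ} (hδ : 0 < δ) (hδη : δ < η) (hη : η < 1) :
    ∃ d₀ : ℕ, ∀ d ≥ d₀, ∀ ε : ℝ, 0 < ε → ∃ c : ℝ, 0 < c ∧ ∃ N₀ : ℕ, ∀ N ≥ N₀,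
      ∀ (V : Type) [Fintype V], Fintype.card V = 2 * d * δ.den * N →
        (∃ G : SimpleGraph V, Regular G d ∧ SSEYes 0 δ G) ∧
        (∃ G : SimpleGraph V, Regular G d ∧ SSENo η δ G) ∧
        ∀ P : LPRelaxation V δ d, P.Separates ε η →
          (2 : ℝ) ^ ((Fintype.card V : ℝ) ^ c) < P.size := by
  obtain ⟨p, hp⟩ : ∃ p : ℕ, (p : ℤ) = δ.num := ⟨δ.num.toNat, Int.toNat_of_nonneg
    (Rat.num_pos.2 hδ).le⟩
  obtain ⟨q, hq⟩ : ∃ q : ℕ, q = δ.den := ⟨_, rfl⟩
  have hq0 : 0 < q := by rw [hq]; exact δ.den_pos
  have hqQ : (0 : ℚ) < q := by exact_mod_cast hq0
  have hδ' : δ = (p : ℚ) / q := by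
    rw [hq, eq_div_iff (by exact_mod_cast δ.den_nz), Rat.mul_den_eq_num, ← hp]
    rfl
  have hp1 : 1 ≤ p := by
    have := Rat.num_pos.2 hδ
    omega
  have hpq : p ≤ q := by
    have h3 : (p : ℚ) / q < 1 := by rw [← hδ']; linarith
    rw [div_lt_one hqQ] at h3
    exact_mod_cast h3.le
  rw [← hq]
  exact main_lp hp1 hpq hδ' hδη

end Pool.Agent.Results.MP_8d8c46_lc.ExponentialLP
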