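import Pool.Agent.Lib.MP_8d8c46_lc.CW.P2

/-!
# There is no small symmetric Turing reduction from 3-SAT to small-set expansion

The definitions are in `Pool/Agent/Lib/MP_8d8c46_lc/Problem.lean` (the promise problem
`SSE(η, δ)`: `SSEYes` and `SSENo`), in `Pool/Agent/Lib/MP_8d8c46_lc/Pebble.lean` (the bijective
pebble game on graphs: `PebbleEquiv`) and in `Pool/Agent/Lib/MP_8d8c46_lc/CW/Defs.lean` (the
bijective pebble game on relational structures: `Struct`, `IsPIso`, `Wins`, `Eqv`; symmetric maps
from structures to graphs: `SymMap`, `SymMap.Vtx`, `SymMap.graph`; oracles for `SSE(η, δ)`:
`Oracle`, `Solves`; symmetric oracle algorithms: `SymAlg`, `SymAlg.Accepts`, `SymAlg.AsksLarge`;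
3-CNF formulas: `Formula`, `Satisfiable`, `ValueLt`, `toStruct`).

Proof idea. (The oracle.) Suppose that Duplicator wins the game with `r + 2` pebbles on a Yes
instance `G` and a No instance `H` with `n` vertices, `N = δ n`. Call a function on the vertices
measurable if it depends only on the type of the vertex over some `r` vertices, the seeds. Let `W`
be the union of all measurable sets with at most `N / 2` vertices and inner degrees at least
`d / 8`: the corresponding union in `H` has at most `8 η N` vertices because `H` is a No instance,
and `W` has as many. Consider the lazy random walk on `G` killed in `W`. Its distributions are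
measurable for one more seed (its starting point), and a Cheeger inequality, applied only to
measurable sets, shows that after `7 log n` steps they have norm at most `√(40 / N)`. A measurable
function with values in `[0, 1]` and sum at most `N` can be transferred to `H`, where it has a small
quadratic form. So the indicator function `h` of the small non-expanding set of `G` is far from its
projection to the measurable functions, and the difference `g` has a large quadratic form; by
log-convexity the walk started at `g` keeps its norm up to the factor `n ^ (- 70 η)`, and some point
`v` has a distribution with a large scalar product with `g`. Taking `v` as a new seed increases the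
norm of the projection; this can be repeated at most `O(n ^ (140 η))` times. So no Yes instance and
No instance are equivalent for `K n ^ (140 η)` pebbles, and the oracle answers yes on the graphs
which are equivalent to a Yes instance.

(The formulas.) There are two 3-CNF formulas, one satisfiable and one of value less than `7 / 8 + ε`,
which are equivalent for a linear number of pebbles (systems of linear equations over the field with
two elements, two copies of each variable). A symmetric map preserves this equivalence, the loss
being the factor `a`: the equivalence classes of tuples are matched by Hall's theorem. So the oracle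
gives the same answers on the two formulas as long as the questions are small.
-/

set_option autoImplicit false

namespace Pool.Agent.Results.MP_8d8c46_lc.NoSymmetricReduction

open Pool.Agent.Lib.MP_8d8c46_lc Pool.Agent.Lib.MP_8d8c46_lc.CW

/-- Let `0 < η ≤ 1 / 200` and `0 < δ ≤ 1 / 2` be rational. There is an oracle `O` for graphs which solves `SSE(η, δ)`,
which gives (for some `K`) the same answer on graphs that are equivalent for the bijective game with at least
`K N ^ (140 η)` pebbles, `N` the number of vertices, and which has the following property. For every `ε > 0` there is
`c > 0` such that for all `n`, `1 ≤ a ≤ c n` and `r ≤ c n` there are a satisfiable 3-CNF formula `φ` and a 3-CNF formula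
`ψ` of value less than `7 / 8 + ε`, both with `n` variables, such that for every randomised symmetric algorithm with oracle
`O`, of dimension `a` with `r` extra pebbles, the probabilities that it accepts `φ` and `ψ` differ by at most the
probability that on `φ` it asks the oracle about a graph with at least `(c n / a) ^ (1 / (140 η))` vertices. -/
theorem result {η δ : ℚ} (hη0 : 0 < η) (hη : η ≤ 1 / 200) (hδ0 : 0 < δ) (hδ : δ ≤ 1 / 2) :
    ∃ O : Oracle, Solves η δ O ∧
      (∃ K : ℝ, ∀ (V W : Type) [Fintype V] [Fintype W] (G : SimpleGraph V) (H : SimpleGraph W) (k : ℕ),
        0 < k → K * (Fintype.card V : ℝ) ^ (140 * (η : ℝ)) ≤ k → PebbleEquiv k G H → (O V G ↔ O W H)) ∧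
      ∀ ε : ℝ, 0 < ε → ∃ c : ℝ, 0 < c ∧ ∀ n a r : ℕ, 1 ≤ a → (a : ℝ) ≤ c * n → (r : ℝ) ≤ c * n →
        ∃ φ ψ : Formula (Fin n), Satisfiable φ ∧ ValueLt (7 / 8 + ε) ψ ∧
          ∀ P : PMF (SymAlg (Fin 3 → Bool) (Fin n) a r),
            |(P.toOuterMeasure {T | T.Accepts O (toStruct φ)}).toReal -
                (P.toOuterMeasure {T | T.Accepts O (toStruct ψ)}).toReal| ≤
              (P.toOuterMeasure {T | T.AsksLarge O (toStruct φ) ((c * n / a) ^ (1 / (140 * (η : ℝ))))}).toReal :=
  main_two hη0 hη hδ0 hδ

end Pool.Agent.Results.MP_8d8c46_lc.NoSymmetricReduction
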