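import Pool.Agent.Lib.MP_8d8c46_lc.SA.Main

/-!
# Sherali–Adams relaxations with polynomially many rounds do not decide small-set expansion

The definitions are in `Pool/Agent/Lib/MP_8d8c46_lc/Problem.lean` (the promise problem
`SSE(η, δ)`: `SSEYes` and `SSENo`) and in `Pool/Agent/Lib/MP_8d8c46_lc/SA/Defs.lean` (the
Sherali–Adams relaxations with a size constraint).

Proof idea. Let `δ = p / q`. The graph `G` is a random `q`-lift of a random `N`-lift of the complete
bipartite graph `K_{d,d}`; a union bound over all sets of vertices shows that it is a No instance.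
Delete the few edges of the `N`-lift that lie on cycles of length at most `2 L`, where `L` is a
small multiple of `log N`. In what is left of `G` the matrix `K(x, y) = ρ ^ dist(x, y)`, cut off at
distance `L`, is positive semidefinite on every set of at most `n ^ c` vertices: on a locally
tree-like graph it is almost inverted by `1 - ρ ^ 2 + ρ ^ 2 D - ρ A`. So there are Gaussian vectors
with this covariance, independent within each cloud of `q` vertices, and the pseudo-set consists
of the vertices with the `p` largest values in their cloud. It has exactly `p` elements in each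
cloud, which gives the size constraint, and an edge that is not deleted is cut with probability
tending to `0` as `ρ` tends to `1`.
-/

set_option autoImplicit false

open scoped Classical

namespace Pool.Agent.Results.MP_8d8c46_lc.SheraliAdamsGap

open Pool.Agent.Lib.MP_8d8c46_lc Pool.Agent.Lib.MP_8d8c46_lc.SA

/-- For all rationals `0 < δ < η < 1` and all sufficiently large `d` the following holds: for every
`ε > 0` there is `c > 0` such that for all sufficiently large multiples `n` of `2 d q`, where `q` is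
the denominator of `δ`, there is a `d`-regular graph `G` on `n` vertices which is a No instance of
`SSE(η, δ)` and for which the Sherali–Adams relaxation with `⌊n ^ c⌋` rounds has a feasible solution
`X` of expansion at most `ε`. -/
theorem result {η δ : ℚ} (h0 : 0 < δ) (h1 : δ < η) (h2 : η < 1) :
    ∃ d₀ : ℕ, ∀ d ≥ d₀, ∀ ε : ℝ, 0 < ε → ∃ c : ℝ, 0 < c ∧ ∃ N₀ : ℕ, ∀ N ≥ N₀,
      ∃ (V : Type) (_ : Fintype V) (_ : DecidableEq V) (G : SimpleGraph V),
        Fintype.card V = 2 * d * δ.den * N ∧ Regular G d ∧ SSENo η δ G ∧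
        ∃ X : Finset V → ℝ,
          SheraliAdams ⌊(Fintype.card V : ℝ) ^ c⌋₊ (δ * Fintype.card V) X ∧
          pseudoExpansion G d (δ * Fintype.card V) X ≤ ε := by
  obtain ⟨p, hp⟩ : ∃ p : ℕ, (p : ℤ) = δ.num := ⟨δ.num.toNat, Int.toNat_of_nonneg
    (Rat.num_pos.2 h0).le⟩
  obtain ⟨q, hq⟩ : ∃ q : ℕ, q = δ.den := ⟨_, rfl⟩
  have hq0 : 0 < q := by rw [hq]; exact δ.den_pos
  have hqQ : (0 : ℚ) < q := by exact_mod_cast hq0
  have hδ : δ = (p : ℚ) / q := by
    rw [hq, eq_div_iff (by exact_mod_cast δ.den_nz), Rat.mul_den_eq_num, ← hp]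
    rfl
  have hp1 : 1 ≤ p := by
    have := Rat.num_pos.2 h0
    omega
  have hpq : p ≤ q := by
    have h3 : (p : ℚ) / q < 1 := by rw [← hδ]; linarith
    rw [div_lt_one hqQ] at h3
    exact_mod_cast h3.le
  have hδR : (δ : ℝ) = (p : ℝ) / q := by rw [hδ]; push_cast; rfl
  have hη : (p : ℝ) / q < (η : ℝ) := by
    rw [← hδR]; exact_mod_cast h1
  obtain ⟨d₀, hd₀, h⟩ := main_pq hp1 hpq hη
  refine ⟨d₀, fun d hd ε hε => ?_⟩
  obtain ⟨c, hc, N₀, hN₀, h'⟩ := h d hd ε hε
  refine ⟨c, hc, N₀, fun N hN => ?_⟩
  obtain ⟨V, hF, hD, G, hcard, hreg, hno, X, hX1, hX2⟩ := h' N hN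
  have hd1 : 1 ≤ d := hd₀.trans hd
  have hN1 : 1 ≤ N := hN₀.trans hN
  have hqR : (q : ℝ) ≠ 0 := by exact_mod_cast hq0.ne'
  have hsize : (δ : ℝ) * Fintype.card V = 2 * d * N * p := by
    rw [hδR, hcard]
    push_cast
    field_simp
  have hsizeQ : δ * (Fintype.card V : ℚ) = ((2 * d * N * p : ℕ) : ℚ) := by
    rw [hδ, hcard]
    push_cast
    field_simp
  refine ⟨V, hF, hD, G, by rw [hcard, hq], hreg, ⟨d, ⟨hd1, hreg, 2 * d * N * p, by positivity,
    hsizeQ.symm⟩, fun S hS => ?_⟩, X, ?_, ?_⟩
  · have hS' : S.card = 2 * d * N * p := by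
      rw [hsizeQ] at hS
      exact_mod_cast hS
    rw [le_expansion_iff hreg hd1 (by rw [hS']; positivity)]
    have h3 := hno S hS'
    have h4 : ((inside G S : ℚ) : ℝ) ≤ ((η * (d * S.card) : ℚ) : ℝ) := by
      push_cast
      exact h3
    exact_mod_cast h4
  · rw [hsize]; exact hX1
  · rw [hsize]; exact hX2

end Pool.Agent.Results.MP_8d8c46_lc.SheraliAdamsGap
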