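import Pool.Agent.Lib.MP_8d8c46_lc.SG.Main

/-!
# Semidefinite programs of exponential size with little symmetry do not solve small-set expansion

The definitions are in `Pool/Agent/Lib/MP_8d8c46_lc/Problem.lean` (the promise problem
`SSE(η, δ)`: `SSEYes` and `SSENo`), `Pool/Agent/Lib/MP_8d8c46_lc/SOS/Defs.lean` (`Lasserre`,
`pseudoExpansion`) and `Pool/Agent/Lib/MP_8d8c46_lc/SG/Defs.lean` (`EquivariantSDP`).

Proof idea. Take a system of linear equations over the field with two elements, with three
variables in each equation, built from random permutations of the variables; the graph has a
cloud of vertices for each local solution (label) of an equation, and two clouds are joined more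
densely if the local solutions share a literal. If the system is satisfiable the local solutions
that agree with a solution form a set of small expansion; for random right-hand sides there is no
such set. In the second case the expansion of the system gives a signed measure on the assignments
`y` which is nonnegative on squares of functions of linear degree and believes in all equations.
Every assignment `y`, satisfying or not, gives a set `S(y)` of exactly `δ n` vertices, and a
permutation `π(y)` of the vertices that maps `S(0)` to `S(y)`; the push-forward of the signed
measure solves the sum-of-squares relaxation.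

The permutation `π(y)` translates the four labels of each equation. The group `Γ` consists of the
permutations of the vertices which are given by a permutation of the four labels of each equation;
it has `24 ^ m` elements, where `m` is the number of equations, and `n = 4 p ^ 2 m` for a large
constant `p`. A `Γ`-equivariant semidefinite relaxation maps `S(y)` to `ρ(π(y)) Y ρ(π(y))ᵀ`. The
averages over the translations of the labels of the equations are commuting idempotents, and split
the representation `ρ` into parts indexed by sets `T` of equations: on the part of `T` the
translations at the equations outside of `T` act trivially, and those at the equations of `T` have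
no invariants. The permutations of the labels of one equation permute the nontrivial characters of
the translations, so the part of `T` is zero or has dimension at least `2 ^ |T|`. So in dimension
less than `2 ^ (k + 1)` the entries of `ρ(π(y)) w` are functions of `y` of degree at most `2 k`,
and the average of the points of the sets `S(y)` for the signed measure is a feasible point whose
objective value is the one of the Yes instance.
-/

set_option autoImplicit false

open scoped Classical

namespace Pool.Agent.Results.MP_8d8c46_lc.SymmetricSDP

open Pool.Agent.Lib.MP_8d8c46_lc

/-- For all rationals `η ≥ 0.496` and `0 < δ ≤ 1/8` and every `ε > 0` there are a degree `d` and a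
constant `c > 0` such that for arbitrarily large `n` there are a set `V` of `n` vertices, a
`d`-regular Yes instance `G` and a `d`-regular No instance `H` of `SSE(η, δ)` on `V` and a group `Γ`
of at most `2 ^ (ε n)` permutations of `V` such that every semidefinite relaxation of size at most
`2 ^ (c n)` which is equivariant under `Γ` has a feasible point of objective value at most `η` for
`H`, and the Lasserre relaxation of level `⌊c n⌋` has a feasible solution of expansion at most `η`
in `H`. -/
theorem result {η δ : ℚ} (hη : 496 / 1000 ≤ η) (hδ0 : 0 < δ) (hδ : δ ≤ 1 / 8) {ε : ℝ}
    (hε : 0 < ε) :
    ∃ (d : ℕ) (c : ℝ), 0 < c ∧ ∀ N₀ : ℕ, ∃ (V : Type) (_ : Fintype V) (G H : SimpleGraph V)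
      (Γ : Subgroup (Equiv.Perm V)),
      N₀ ≤ Fintype.card V ∧ Regular G d ∧ Regular H d ∧ SSEYes η δ G ∧ SSENo η δ H ∧
      (Nat.card Γ : ℝ) ≤ 2 ^ (ε * Fintype.card V) ∧
      (∀ P : SG.EquivariantSDP V Γ δ d, (P.size : ℝ) ≤ 2 ^ (c * Fintype.card V) →
        ∃ Y ∈ P.space, Y.PosSemidef ∧ P.obj H Y ≤ η) ∧
      (∃ X : Finset V → ℝ, SOS.Lasserre ⌊c * Fintype.card V⌋₊ (δ * Fintype.card V) X ∧
        SOS.pseudoExpansion H d (δ * Fintype.card V) X ≤ η) := by
  obtain ⟨d, c, hc, h⟩ := sg_main hη hδ0 hδ hε
  refine ⟨d, c, hc, fun N₀ => ?_⟩
  obtain ⟨V, hV, G, H, Γ, h1, h2, h3, h4, h5, h6, h7, h8⟩ := h N₀
  exact ⟨V, hV, G, H, Γ, h1, h2, h3, h4, h5, h6, h8, h7⟩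

end Pool.Agent.Results.MP_8d8c46_lc.SymmetricSDP
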