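import Pool.Agent.Lib.MP_8d8c46_lc.WLMain

/-!
# Counting logic with linearly many variables does not decide small-set expansion

The definitions are in `Pool/Agent/Lib/MP_8d8c46_lc/Problem.lean` (the promise problem
`SSE(η, δ)`: `SSEYes` and `SSENo`) and in `Pool/Agent/Lib/MP_8d8c46_lc/Pebble.lean` (the bijective
`k`-pebble game: `PebbleEquiv`).

Proof idea: take two systems of linear equations over the field with two elements, with three
variables in each equation, built from random permutations of the variables. The graph has a
cloud of vertices for each local solution of an equation, and two clouds are joined more densely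
if the local solutions share a literal. A solution of the first system gives a set of expansion
less than `0.496`. If the right-hand sides of the first system are random there is no set of the
same size of expansion less than `0.504`, by a concentration argument that is uniform over all
`[0,1]`-valued functions on the literals. The expansion of the system lets Duplicator win the
pebble game with linearly many pebbles.
-/

set_option autoImplicit false

namespace Pool.Agent.Results.MP_8d8c46_lc.WLIndistinguishable

open Pool.Agent.Lib.MP_8d8c46_lc

/-- For all rationals `η ≥ 0.496` and `0 < δ ≤ 1/8` there are a degree `d` and a constant `c > 0`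
such that there are arbitrarily large pairs of a Yes instance `G` and a No instance `H` of
`SSE(η, δ)`, both `d`-regular and with the same number `n` of vertices, such that Duplicator wins
the bijective `k`-pebble game on `G` and `H` for all `k ≤ c n`. -/
theorem result {η δ : ℚ} (hη : 496 / 1000 ≤ η) (hδ0 : 0 < δ) (hδ : δ ≤ 1 / 8) :
    ∃ (d : ℕ) (c : ℝ), 0 < c ∧ ∀ N₀ : ℕ, ∃ (V : Type) (_ : Fintype V) (G H : SimpleGraph V),
      N₀ ≤ Fintype.card V ∧ Regular G d ∧ Regular H d ∧ SSEYes η δ G ∧ SSENo η δ H ∧
        ∀ k : ℕ, (k : ℝ) ≤ c * Fintype.card V → PebbleEquiv k G H :=
  wl_main hη hδ0 hδ

end Pool.Agent.Results.MP_8d8c46_lc.WLIndistinguishable
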